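import Pool.Agent.H55.Cos.Stmts

/-!
Module E4 of project COS.
-/

set_option warn.classDefReducibility false

namespace Pool.Agent.H55.Cos

open Set Filter Topology

theorem ge_of_deep {y : Cant} {s : List ℕ} {k : ℕ} (hk : k ≤ s.length) (h : y ∈ canon.C s) : y ∈ GE k := by
  refine ⟨s.drop (s.length - k), by rw [List.length_drop]; omega, ?_⟩
  have h1 : s = s.take (s.length - k) ++ s.drop (s.length - k) := (List.take_append_drop _ _).symm
  rw [h1] at h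
  exact canon.sub_append _ _ h

theorem exists_FF (h6 : CAN6Stmt) {z : XX} (h : ¬ Inf (lv z)) : ∃ k, z ∈ FF k := by
  rw [h6.2.1] at h
  push Not at h
  obtain ⟨k, hk⟩ := h
  exact ⟨k, fun hz => hk (h6.2.2 k hz)⟩

theorem e4_aux (h2 : CAN2Stmt) (h6 : CAN6Stmt) (hF : FKNStmt) {W W' : Set XX} (hW : @IsOpen XX tauU W)
    (hd : Disjoint W W') {c l x y : Cant} (hl : ¬ Inf l) (hy : Inf y)
    (hb : ∀ k : ℕ, ∃ s : List ℕ, k ≤ s.length ∧ y ∈ canon.C s ∧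
      ∃ r : List ℕ, ((c, l, x, nd (r ++ s)) : XX) ∈ W') : ((c, l, x, y) : XX) ∉ W := by
  intro hz
  obtain ⟨k, hk⟩ := exists_FF h6 (z := ((c, l, x, y) : XX)) hl
  obtain ⟨O, hO, η, hη, hW'⟩ := hF W hW k _ hz hk
  obtain ⟨j, hj⟩ := exists_pow_lt_of_lt_one hη (by norm_num : (1 / 2 : ℝ) < 1)
  have hO' : {y' : Cant | ((c, l, x, y') : XX) ∈ O} ∈ 𝓝 y := by
    have hc : ContinuousAt (fun y' : Cant => ((c, l, x, y') : XX)) y := by fun_prop
    exact hc hO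
  obtain ⟨s0, hs0, hys0, hs0O⟩ := (h2 y hy).2 _ hO' j
  obtain ⟨s, hs, hys, r, hr⟩ := hb s0.length
  have hss : canon.C s ⊆ canon.C s0 := canon.sub_of_le hs hys0 hys
  have hw : nd (r ++ s) ∈ canon.C s := canon.sub_append r s (canon.w_mem (r ++ s))
  have h1 : ((c, l, x, nd (r ++ s)) : XX) ∈ W := by
    refine hW' _ (hs0O (hss hw)) hk ?_ ?_
    · simp only [g1, xc, sub_self, abs_zero]; exact hη
    · simp only [g2, yc, gg]
      have e1 := canon.f_close hw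
      have e2 := canon.f_close hys
      have e3 : (1 / 2 : ℝ) ^ (s.length + 1) ≤ (1 / 2) ^ (j + 1) :=
        pow_le_pow_of_le_one (by norm_num) (by norm_num) (by omega)
      have e4 : (1 / 2 : ℝ) ^ (j + 1) = (1 / 2) ^ j / 2 := by rw [pow_succ]; ring
      have e5 : canon.f (nd (r ++ s)) - canon.f y
          = (canon.f (nd (r ++ s)) - val s) - (canon.f y - val s) := by ring
      rw [e5]
      have e6 := abs_sub (canon.f (nd (r ++ s)) - val s) (canon.f y - val s)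
      linarith
  exact Set.disjoint_left.mp hd h1 hr

theorem cos_e4 (h2 : CAN2Stmt) (h6 : CAN6Stmt) (hF : FKNStmt) (hE3 : E3Stmt) : E4Stmt := by
  intro U V hP c l x hl hx hd O s hO hlx hG
  obtain ⟨y, hys, hy⟩ := canon.branch
    (fun s' => ∃ O' : Set (Cant × Cant), IsOpen O' ∧ (l, x) ∈ O' ∧ GB U V c O' s') s ⟨O, hO, hlx, hG⟩
    (by
      rintro s' ⟨O', hO', hlx', hG'⟩
      obtain ⟨n, _, O'', _, hO'', hlx'', hG''⟩ := (hE3 U V hP c l x hx hd).2 O' s' hO' hlx' hG' 0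
      exact ⟨n, O'', hO'', hlx'', hG''⟩)
  have hyi : Inf y := by
    rw [h6.2.1]
    intro k
    obtain ⟨t, ht, _, hyt⟩ := hy k
    exact ge_of_deep ht hyt
  refine ⟨y, hys, hl, hx, hyi, ?_, ?_, ?_⟩
  · refine e4_aux h2 h6 hF hP.oU hP.disj hl hyi fun k => ?_
    obtain ⟨t, ht, ⟨O', _, hlx', hG'⟩, hyt⟩ := hy k
    refine ⟨t, ht, hyt, ?_⟩
    rcases hG' with hG' | hG'
    · obtain ⟨r, hr⟩ := canon.br_high hG'
      exact ⟨r, hr _ hlx'⟩
    · obtain ⟨r, hr⟩ := canon.br_low hG'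
      exact ⟨r, hr _ hlx'⟩
  · refine e4_aux h2 h6 hF hP.oV hP.disj.symm hl hyi fun k => ?_
    obtain ⟨t, ht, ⟨O', _, hlx', hG'⟩, hyt⟩ := hy k
    refine ⟨t, ht, hyt, ?_⟩
    rcases hG' with hG' | hG'
    · obtain ⟨r, hr⟩ := canon.br_low hG'
      exact ⟨r, hr _ hlx'⟩
    · obtain ⟨r, hr⟩ := canon.br_high hG'
      exact ⟨r, hr _ hlx'⟩
  · intro k
    obtain ⟨t, ht, ⟨O', hO', hlx', hG'⟩, hyt⟩ := hy k
    exact ⟨t, ht, hyt, O', hO', hlx', hG'⟩

end Pool.Agent.H55.Cos
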