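import Pool.Agent.H55.Cos.Stmts

/-!
Module E5 of project COS.
-/

set_option warn.classDefReducibility false

namespace Pool.Agent.H55.Cos

open Set Filter Topology

theorem gb_mono {U V : Set XX} {c : Cant} {O O' : Set (Cant × Cant)} {s : List ℕ} (h : O' ⊆ O)
    (hg : GB U V c O s) : GB U V c O' s := by
  rcases hg with hg | hg
  · exact Or.inl (canon.br_mono hg (fun y _ hp p hp' => hp p (h hp')) (fun y _ hp p hp' => hp p (h hp')))
  · exact Or.inr (canon.br_mono hg (fun y _ hp p hp' => hp p (h hp')) (fun y _ hp p hp' => hp p (h hp')))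

theorem cos_e5 (h2 : CAN2Stmt) (h3 : CAN3Stmt) (h7 : CAN7Stmt) (hE2 : E2Stmt) (hE3 : E3Stmt)
    (hE4 : E4Stmt) : E5Stmt := by
  intro U V hP
  constructor
  · intro c
    obtain ⟨x, _, hx, hd⟩ := hE2 U V hP c (nd []) (not_inf_nd []) []
    obtain ⟨⟨O, hO, hlx, s, hs⟩, _⟩ := hE3 U V hP c (nd []) x hx hd
    obtain ⟨y, _, hy⟩ := hE4 U V hP c (nd []) x (not_inf_nd []) hx hd O s hO hlx hs
    exact ⟨_, hy, rfl⟩
  · rintro ⟨c, l, x, y⟩ hz N hN k
    obtain ⟨hl, hx, hy, hU, hV, hR⟩ := hz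
    simp only [lv, xc, yc, tg] at hl hx hy hR
    rw [nhds_prod_eq, Filter.mem_prod_iff] at hN
    obtain ⟨N1, hN1, N', hN', hN⟩ := hN
    rw [nhds_prod_eq, Filter.mem_prod_iff] at hN'
    obtain ⟨N2, hN2, N'', hN'', hN'⟩ := hN'
    rw [nhds_prod_eq, Filter.mem_prod_iff] at hN''
    obtain ⟨N3, hN3, N4, hN4, hN''⟩ := hN''
    obtain ⟨s', _, hys', hs'⟩ := (h2 y hy).2 N4 hN4 0
    obtain ⟨s, hs, hys, O, hO, hlx, hG⟩ := hR s'.length
    have hsN : canon.C s ⊆ N4 := (canon.sub_of_le hs hys' hys).trans hs'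
    -- shrink
    have hO' : interior (O ∩ N2 ×ˢ N3) ∈ 𝓝 (l, x) := by
      refine interior_mem_nhds.mpr (inter_mem (hO.mem_nhds hlx) (prod_mem_nhds hN2 hN3))
    set O' := interior (O ∩ N2 ×ˢ N3) with hO'def
    have hO'o : IsOpen O' := isOpen_interior
    have hO's : O' ⊆ O ∩ N2 ×ˢ N3 := interior_subset
    have hl1 : {l' : Cant | (l', x) ∈ O'} ∈ 𝓝 l := by
      have hc : ContinuousAt (fun l' : Cant => (l', x)) l := by fun_prop
      exact hc hO'
    obtain ⟨l', hl', hfin, hge⟩ := h7 l hl _ hl1 (k + 1)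
    have ho : IsOpen {x' : Cant | (l', x') ∈ O'} := by
      have hc : Continuous (fun x' : Cant => (l', x')) := by fun_prop
      exact hO'o.preimage hc
    obtain ⟨t, ht⟩ := h3 _ ho ⟨x, hl'⟩
    obtain ⟨x', hx't, hx', hd⟩ := hE2 U V hP c l' hfin t
    have hx'O : (l', x') ∈ O' := ht hx't
    obtain ⟨y', hy's, hRob⟩ := hE4 U V hP c l' x' hfin hx' hd O' s hO'o hx'O
      (gb_mono (hO's.trans inter_subset_left) hG)
    refine ⟨(c, l', x', y'), hN ⟨mem_of_mem_nhds hN1, hN' ⟨(hO's hx'O).2.1, hN'' ⟨(hO's hx'O).2.2, hsN hy's⟩⟩⟩,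
      hRob, rfl, ?_⟩
    intro h
    exact h hge

end Pool.Agent.H55.Cos
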