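import Pool.Agent.H55.Cos.Stmts

/-!
Module E6 of project COS: building a tree system from robust points.
-/

set_option warn.classDefReducibility false

namespace Pool.Agent.H55.Cos

open Set Filter Topology

/-- agreement with `a` on the first `N` bits of all coordinates -/
def Agr (a : XX) (N : ℕ) : Set XX :=
  {z | ∀ i < N, tg z i = tg a i ∧ lv z i = lv a i ∧ xc z i = xc a i ∧ yc z i = yc a i}

theorem agr_self (a : XX) (N : ℕ) : a ∈ Agr a N := fun _ _ => ⟨rfl, rfl, rfl, rfl⟩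

theorem agr_zero (a : XX) : Agr a 0 = Set.univ := by
  ext z; simp [Agr]

theorem agr_mono (a : XX) {N M : ℕ} (h : N ≤ M) : Agr a M ⊆ Agr a N :=
  fun _ hz i hi => hz i (lt_of_lt_of_le hi h)

theorem agr_clopen (a : XX) (N : ℕ) : IsClopen (Agr a N) := by
  have h1 := (isClopen_agree (tg a) N).preimage (f := fun z : XX => z.1) (by fun_prop)
  have h2 := (isClopen_agree (lv a) N).preimage (f := fun z : XX => z.2.1) (by fun_prop)
  have h3 := (isClopen_agree (xc a) N).preimage (f := fun z : XX => z.2.2.1) (by fun_prop)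
  have h4 := (isClopen_agree (yc a) N).preimage (f := fun z : XX => z.2.2.2) (by fun_prop)
  have h := ((h1.inter h2).inter h3).inter h4
  convert h using 1
  ext z
  simp only [Agr, tg, lv, xc, yc, mem_ofPred_eq, mem_inter_iff, mem_preimage]
  constructor
  · intro hz
    exact ⟨⟨⟨fun i hi => (hz i hi).1, fun i hi => (hz i hi).2.1⟩, fun i hi => (hz i hi).2.2.1⟩,
      fun i hi => (hz i hi).2.2.2⟩
  · rintro ⟨⟨⟨a1, a2⟩, a3⟩, a4⟩ i hi
    exact ⟨a1 i hi, a2 i hi, a3 i hi, a4 i hi⟩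

theorem agr_basis {a : XX} {O : Set XX} (hO : O ∈ 𝓝 a) : ∃ N, Agr a N ⊆ O := by
  obtain ⟨a1, a2, a3, a4⟩ := a
  rw [nhds_prod_eq, Filter.mem_prod_iff] at hO
  obtain ⟨N1, hN1, N', hN', hO⟩ := hO
  rw [nhds_prod_eq, Filter.mem_prod_iff] at hN'
  obtain ⟨N2, hN2, N'', hN'', hN'⟩ := hN'
  rw [nhds_prod_eq, Filter.mem_prod_iff] at hN''
  obtain ⟨N3, hN3, N4, hN4, hN''⟩ := hN''
  obtain ⟨n1, h1⟩ := exists_agree hN1
  obtain ⟨n2, h2⟩ := exists_agree hN2
  obtain ⟨n3, h3⟩ := exists_agree hN3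
  obtain ⟨n4, h4⟩ := exists_agree hN4
  refine ⟨n1 + n2 + n3 + n4, fun z hz => hO ⟨h1 fun i hi => ?_, hN' ⟨h2 fun i hi => ?_,
    hN'' ⟨h3 fun i hi => ?_, h4 fun i hi => ?_⟩⟩⟩⟩
  · exact (hz i (by omega)).1
  · exact (hz i (by omega)).2.1
  · exact (hz i (by omega)).2.2.1
  · exact (hz i (by omega)).2.2.2

theorem agr_sep {a b : XX} (h : a ≠ b) : ∃ N, ∀ N1 N2, N ≤ N1 → N ≤ N2 →
    Disjoint (Agr a N1) (Agr b N2) := by
  have h1 : ({b}ᶜ : Set XX) ∈ 𝓝 a := isOpen_compl_singleton.mem_nhds h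
  obtain ⟨N, hN⟩ := agr_basis h1
  refine ⟨N, fun N1 N2 hN1 hN2 => ?_⟩
  rw [Set.disjoint_left]
  intro z hz hz'
  have hb : b ∈ Agr a N := by
    intro i hi
    have e1 := hz i (by omega)
    have e2 := hz' i (by omega)
    exact ⟨by rw [← e2.1, e1.1], by rw [← e2.2.1, e1.2.1], by rw [← e2.2.2.1, e1.2.2.1],
      by rw [← e2.2.2.2, e1.2.2.2]⟩
  exact hN hb rfl

theorem ff_mono (h6 : CAN6Stmt) {j k : ℕ} (h : j ≤ k) : FF j ⊆ FF k := by
  intro z hz hz'
  refine hz ?_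
  have : ∀ m, j ≤ m → GE (m + 1) ⊆ GE (j + 1) := by
    intro m hm
    induction m, hm using Nat.le_induction with
    | base => exact subset_rfl
    | succ m _ ih => exact (h6.2.2 (m + 1)).trans ih
  exact this k h hz'

theorem e6_step (h6 : CAN6Stmt) {R : Set XX} (hR : ∀ z ∈ R, ¬ Inf (lv z) ∧ Inf (xc z) ∧ Inf (yc z))
    (hD : ∀ z ∈ R, ∀ N ∈ 𝓝 z, ∀ k, ∃ z' ∈ N, z' ∈ R ∧ z' ∉ FF k) {z : XX} (hz : z ∈ R) (q n M : ℕ) :
    ∃ (z' : XX) (N' M' : ℕ), z' ∈ R ∧ Agr z' N' ⊆ Agr z M ∧ Disjoint (Agr z' N') (FF n) ∧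
      (∀ y ∈ Agr z' N', lv y ∈ GE (q + 1) ∧ xc y ∈ GE (q + 1) ∧ yc y ∈ GE (q + 1)) ∧
      q + 1 ≤ N' ∧ M < M' ∧ Disjoint (Agr z' N') (Agr z M') := by
  have hzK : ∃ K, z ∈ FF K := by
    have h := (hR z hz).1
    rw [h6.2.1] at h
    push Not at h
    obtain ⟨k, hk⟩ := h
    exact ⟨k, fun hz => hk (h6.2.2 k hz)⟩
  obtain ⟨K, hK⟩ := hzK
  obtain ⟨z', hz'M, hz'R, hz'F⟩ := hD z hz (Agr z M) ((agr_clopen z M).2.mem_nhds (agr_self z M))
    (n + q + K)
  have hne : z' ≠ z := by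
    rintro rfl
    exact hz'F (ff_mono h6 (by omega) hK)
  obtain ⟨N0, hN0⟩ := agr_sep hne
  have hopen : ∀ k, IsOpen {y : XX | lv y ∈ GE k ∧ xc y ∈ GE k ∧ yc y ∈ GE k} := by
    intro k
    have a1 := (h6.1 k).preimage (f := fun z : XX => z.2.1) (by fun_prop)
    have a2 := (h6.1 k).preimage (f := fun z : XX => z.2.2.1) (by fun_prop)
    have a3 := (h6.1 k).preimage (f := fun z : XX => z.2.2.2) (by fun_prop)
    exact a1.inter (a2.inter a3)
  have hmem1 : {y : XX | lv y ∈ GE (q + 1) ∧ xc y ∈ GE (q + 1) ∧ yc y ∈ GE (q + 1)} ∈ 𝓝 z' := by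
    refine (hopen (q + 1)).mem_nhds ⟨?_, ?_, ?_⟩
    · by_contra hcon
      exact hz'F (ff_mono h6 (by omega) (show z' ∈ FF q from hcon))
    · exact (h6.2.1 _).mp (hR z' hz'R).2.1 _
    · exact (h6.2.1 _).mp (hR z' hz'R).2.2 _
  have hmem2 : {y : XX | lv y ∈ GE (n + 1)} ∈ 𝓝 z' := by
    have a1 := (h6.1 (n + 1)).preimage (f := fun z : XX => z.2.1) (by fun_prop)
    refine a1.mem_nhds ?_
    by_contra hcon
    exact hz'F (ff_mono h6 (by omega) (show z' ∈ FF n from hcon))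
  have hmem3 : Agr z M ∈ 𝓝 z' := (agr_clopen z M).2.mem_nhds hz'M
  obtain ⟨N1, hN1⟩ := agr_basis (inter_mem hmem1 (inter_mem hmem2 hmem3))
  refine ⟨z', N0 + N1 + q + 1, N0 + M + 1, hz'R, ?_, ?_, ?_, by omega, by omega,
    hN0 _ _ (by omega) (by omega)⟩
  · exact ((agr_mono z' (by omega)).trans hN1).trans (inter_subset_right.trans inter_subset_right)
  · rw [Set.disjoint_left]
    intro y hy hy'
    exact hy' ((hN1 (agr_mono z' (by omega) hy)).2.1)
  · intro y hy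
    exact (hN1 (agr_mono z' (by omega) hy)).1

theorem e6_children (h6 : CAN6Stmt) {R : Set XX}
    (hR : ∀ z ∈ R, ¬ Inf (lv z) ∧ Inf (xc z) ∧ Inf (yc z))
    (hD : ∀ z ∈ R, ∀ N ∈ 𝓝 z, ∀ k, ∃ z' ∈ N, z' ∈ R ∧ z' ∉ FF k) (z : R) (M0 q : ℕ) :
    ∃ (u : ℕ → R) (N : ℕ → ℕ), (∀ n, Agr (u n) (N n) ⊆ Agr z M0) ∧
      (∀ n m, n ≠ m → Disjoint (Agr (u n) (N n)) (Agr (u m) (N m))) ∧
      (∀ n, (z : XX) ∉ Agr (u n) (N n)) ∧
      (∀ K, ∀ᶠ n in atTop, Agr (u n) (N n) ⊆ Agr z K) ∧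
      (∀ n, Disjoint (Agr (u n) (N n)) (FF n)) ∧
      (∀ n, ∀ y ∈ Agr (u n) (N n), lv y ∈ GE (q + 1) ∧ xc y ∈ GE (q + 1) ∧ yc y ∈ GE (q + 1)) ∧
      (∀ n, q + 1 ≤ N n) := by
  have hst := fun (n M : ℕ) => e6_step h6 hR hD z.2 q n M
  choose z' N' M' h1 h2 h3 h4 h5 h6' h7 using hst
  let m : ℕ → ℕ := fun n => Nat.rec M0 (fun k M => M' k M) n
  have hm0 : m 0 = M0 := rfl
  have hms : ∀ n, m (n + 1) = M' n (m n) := fun n => rfl
  have hmlt : ∀ n, m n < m (n + 1) := fun n => by rw [hms]; exact h6' n (m n)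
  have hmono : StrictMono m := strictMono_nat_of_lt_succ hmlt
  have hdis : ∀ n k, n < k → Disjoint (Agr (z' n (m n)) (N' n (m n))) (Agr (z' k (m k)) (N' k (m k))) := by
    intro n k hnk
    refine (h7 n (m n)).mono_right ?_
    refine (h2 k (m k)).trans (agr_mono _ ?_)
    rw [← hms]
    exact hmono.monotone hnk
  refine ⟨fun n => ⟨z' n (m n), h1 n (m n)⟩, fun n => N' n (m n), ?_, ?_, ?_, ?_, ?_, ?_, ?_⟩
  · intro n
    exact (h2 n (m n)).trans (agr_mono _ (by rw [← hm0]; exact hmono.monotone (Nat.zero_le n)))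
  · intro n k hnk
    rcases lt_or_gt_of_ne hnk with h | h
    · exact hdis n k h
    · exact (hdis k n h).symm
  · intro n hn
    exact Set.disjoint_left.mp (h7 n (m n)) hn (agr_self _ _)
  · intro K
    filter_upwards [eventually_ge_atTop K] with n hn
    exact (h2 n (m n)).trans (agr_mono _ (hn.trans (hmono.id_le n)))
  · intro n; exact h3 n (m n)
  · intro n; exact h4 n (m n)
  · intro n; exact h5 n (m n)

theorem cos_e6 (h6 : CAN6Stmt) : E6Stmt := by
  intro R hR hD hne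
  obtain ⟨z0, hz0⟩ := hne
  have hch := e6_children h6 hR hD
  choose u N h1 h2 h3 h4 h5 h7 h8 using hch
  let st : List ℕ → R × ℕ := fun s => List.rec (motive := fun _ => R × ℕ) (⟨z0, hz0⟩, 0)
    (fun n s p => (u p.1 p.2 s.length n, N p.1 p.2 s.length n)) s
  have hst0 : st [] = (⟨z0, hz0⟩, 0) := rfl
  have hstc : ∀ n s, st (n :: s) = (u (st s).1 (st s).2 s.length n, N (st s).1 (st s).2 s.length n) :=
    fun n s => rfl
  let S : TreeSys XX :=
    { C := fun s => Agr (st s).1 (st s).2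
      w := fun s => (st s).1
      C_nil := agr_zero _
      clopen := fun s => agr_clopen _ _
      sub := fun n s => h1 (st s).1 (st s).2 s.length n
      disj := fun s n m hnm => h2 (st s).1 (st s).2 s.length n m hnm
      w_mem := fun s => agr_self _ _
      w_not := fun n s => h3 (st s).1 (st s).2 s.length n
      conv := by
        intro s O hO
        obtain ⟨K, hK⟩ := agr_basis hO
        filter_upwards [h4 (st s).1 (st s).2 s.length K] with n hn
        exact hn.trans hK }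
  refine ⟨S, fun s => (st s).1.2, ?_, ?_, ?_⟩
  · intro s k
    filter_upwards [eventually_ge_atTop k] with n hn
    exact (h5 (st s).1 (st s).2 s.length n).mono_right (ff_mono h6 hn)
  · intro s
    cases s with
    | nil =>
      intro z _
      exact ⟨⟨[], rfl, by rw [canon.C_nil]; trivial⟩, ⟨[], rfl, by rw [canon.C_nil]; trivial⟩,
        ⟨[], rfl, by rw [canon.C_nil]; trivial⟩⟩
    | cons n s =>
      intro z hz
      exact h7 (st s).1 (st s).2 s.length n z hz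
  · intro s z hz i hi
    have hl : s.length ≤ (st s).2 := by
      cases s with
      | nil => exact Nat.zero_le _
      | cons n s => exact h8 (st s).1 (st s).2 s.length n
    exact hz i (lt_of_lt_of_le hi hl)

end Pool.Agent.H55.Cos
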