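import Pool.Agent.H55.Cos.Stmts

/-!
Module FIN of project COS.
-/

set_option warn.classDefReducibility false

namespace Pool.Agent.H55.Cos

open Set Filter Topology

theorem large_succ : ∀ (m : ℕ) (X : Type) [TopologicalSpace X], LargeLT m X → LargeLT (m + 1) X := by
  intro m
  induction m with
  | zero =>
    intro X _ h A V hA hV hAV
    have h' : IsEmpty X := h
    refine ⟨∅, isOpen_empty, fun x _ => (h'.false x).elim, by simp, ?_⟩
    show IsEmpty (frontier (∅ : Set X))
    rw [frontier_empty]; infer_instance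
  | succ m ih =>
    intro X _ h A V hA hV hAV
    obtain ⟨U, hU, hAU, hUV, hf⟩ := h A V hA hV hAV
    exact ⟨U, hU, hAU, hUV, ih _ hf⟩

theorem large_le {m n : ℕ} (h : m ≤ n) (X : Type) [TopologicalSpace X] (hm : LargeLT m X) : LargeLT n X := by
  induction n, h using Nat.le_induction with
  | base => exact hm
  | succ n _ ih => exact large_succ n X ih

theorem cos_fin (hG : GTGStmt) (hN : NETStmt) (hD : DIMStmt) (hI : IGGStmt) : FINStmt := by
  have key : ∃ (G : Type) (_ : CommGroup G) (_ : TopologicalSpace G), IsTopologicalGroup G ∧ T2Space G ∧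
      HasCountableNetwork G ∧ covDim G ≤ 1 ∧ 2 ≤ largeInd G := by
    letI : TopologicalSpace GG := TT Set.univ
    haveI : IsTopologicalAddGroup GG := hG.1 Set.univ
    have hT2 : T2Space GG := hG.2 Set.univ trivial
    refine ⟨Multiplicative GG, inferInstance, inferInstance, inferInstance, hT2, hN, ?_, ?_⟩
    · refine sInf_le (Or.inr ⟨1, hD, ?_⟩)
      rfl
    · refine le_sInf ?_
      rintro d (⟨h0, rfl⟩ | ⟨n, hn, rfl⟩)
      · exfalso
        exact hI (large_le (Nat.zero_le 2) _ h0)
      · have : 2 ≤ n := by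
          by_contra hcon
          exact hI (large_le (by omega : n + 1 ≤ 2) _ hn)
        have h3 : ((2 : ℕ∞) : WithBot ℕ∞) ≤ ((n : ℕ∞) : WithBot ℕ∞) :=
          WithBot.coe_le_coe.mpr (by exact_mod_cast this)
        exact h3
  refine ⟨key, fun hall => ?_⟩
  obtain ⟨G, hG1, hG2, hG3, hG4, hG5, hG6, hG7⟩ := key
  have h := (hall G hG5).1
  rw [h] at hG6
  have h2 : (2 : WithBot ℕ∞) ≤ 1 := hG7.trans hG6
  exact absurd h2 (by decide)

end Pool.Agent.H55.Cos
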