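import Pool.Agent.H55.Cos.Stmts

/-!
Module IGG of project COS.
-/

set_option warn.classDefReducibility false

namespace Pool.Agent.H55.Cos

open Set Filter Topology

theorem large_one_zd {M : Type} [TopologicalSpace M] [T1Space M] {s : Set M} (h : LargeLT 1 s) :
    ZD s := by
  intro x hx O hO hxO
  have h1 := h {⟨x, hx⟩} (Subtype.val ⁻¹' O) isClosed_singleton (hO.preimage continuous_subtype_val)
    (by rintro _ rfl; exact hxO)
  obtain ⟨U, hU, hxU, hUO, hf⟩ := h1
  have hf' : frontier U = ∅ := by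
    have : IsEmpty (frontier U) := hf
    exact Set.isEmpty_coe_sort.mp this
  have hcl : IsClosed U := by
    have := hU.frontier_eq
    rw [hf'] at this
    have h2 : closure U ⊆ U := by
      intro y hy
      by_contra hcon
      have : y ∈ (∅ : Set s) := by rw [this]; exact ⟨hy, hcon⟩
      exact this
    exact closure_subset_iff_isClosed.mp h2
  obtain ⟨A, hA, hAU⟩ := isOpen_induced_iff.mp hU
  obtain ⟨B, hB, hBU⟩ := isOpen_induced_iff.mp hcl.isOpen_compl
  have mA : ∀ y (hy : y ∈ s), y ∈ A ↔ (⟨y, hy⟩ : s) ∈ U := by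
    intro y hy
    rw [← hAU]; rfl
  have mB : ∀ y (hy : y ∈ s), y ∈ B ↔ (⟨y, hy⟩ : s) ∉ U := by
    intro y hy
    rw [← Set.mem_compl_iff, ← hBU]; rfl
  refine ⟨A, B, hA, hB, (mA x hx).mpr (hxU rfl), ?_, ?_, ?_⟩
  · rintro y ⟨hyA, hy⟩
    exact hUO (subset_closure ((mA y hy).mp hyA))
  · intro y hy
    by_cases hyU : (⟨y, hy⟩ : s) ∈ U
    · exact Or.inl ((mA y hy).mpr hyU)
    · exact Or.inr ((mB y hy).mpr hyU)
  · ext y
    simp only [mem_inter_iff, mem_empty_iff_false, iff_false]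
    rintro ⟨⟨hyA, hyB⟩, hy⟩
    exact (mB y hy).mp hyB ((mA y hy).mp hyA)

theorem cos_igg (hG : GTGStmt) (hD : DEIStmt) (hI : INDStmt) : IGGStmt := by
  intro h
  let _ : TopologicalSpace GG := TT Set.univ
  have _ : T2Space GG := hG.2 Set.univ trivial
  obtain ⟨hind, hcl⟩ := hD Set.univ trivial
  have htau : tauU = TopologicalSpace.induced de (TT Set.univ) := hind
  have hinj : Function.Injective de := by
    intro z z' hzz
    have := Finsupp.single_left_injective (M := ℤ) (b := 1) one_ne_zero hzz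
    exact this
  -- closed sets
  have hclosed : ∀ C : Set XX, @IsClosed XX tauU C → IsClosed (de '' C) := by
    intro C hC
    rw [htau] at hC
    obtain ⟨C', hC', rfl⟩ := isClosed_induced_iff.mp hC
    rw [Set.image_preimage_eq_inter_range]
    exact hC'.inter hcl
  have hg2 : @Continuous XX ℝ tauU _ g2 := by
    rw [continuous_iff_le_induced]
    unfold tauU tau
    refine inf_le_right.trans ?_
    exact iInf₂_le (some (Sum.inl true)) trivial
  have hA : IsClosed (de '' {z | g2 z ≤ 1 / 4}) := by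
    refine hclosed _ ?_
    exact @IsClosed.preimage XX ℝ tauU _ g2 hg2 _ isClosed_Iic
  have hB : IsClosed (de '' {z | 3 / 4 ≤ g2 z}) := by
    refine hclosed _ ?_
    exact @IsClosed.preimage XX ℝ tauU _ g2 hg2 _ isClosed_Ici
  obtain ⟨W, hW, hAW, hWV, hf⟩ := h (de '' {z | g2 z ≤ 1 / 4}) (de '' {z | 3 / 4 ≤ g2 z})ᶜ hA hB.isOpen_compl
    (by
      rintro _ ⟨z, hz, rfl⟩ ⟨z', hz', hzz⟩
      have := hinj hzz
      subst this
      simp only [mem_ofPred_eq] at hz hz'
      linarith)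
  have hzd : ZD (frontier W) := large_one_zd hf
  have hop : ∀ O : Set GG, IsOpen O → @IsOpen XX tauU (de ⁻¹' O) := by
    intro O hO
    rw [htau]
    exact isOpen_induced hO
  refine hI (de ⁻¹' W) (de ⁻¹' (closure W)ᶜ) ⟨hop _ hW, hop _ isClosed_closure.isOpen_compl, ?_, ?_, ?_, ?_⟩
  · rw [Set.disjoint_left]
    intro z hz hz'
    exact hz' (subset_closure hz)
  · intro z hz
    exact hAW ⟨z, hz, rfl⟩
  · intro z hz hz'
    exact hWV hz' ⟨z, hz, rfl⟩
  · have hs : (de ⁻¹' W ∪ de ⁻¹' (closure W)ᶜ)ᶜ = de ⁻¹' (frontier W) := by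
      rw [hW.frontier_eq]
      ext z
      simp only [mem_compl_iff, mem_union, mem_preimage, Set.mem_sdiff]
      tauto
    rw [hs]
    intro z hz O hO hzO
    rw [htau] at hO
    obtain ⟨O', hO', rfl⟩ := isOpen_induced_iff.mp hO
    obtain ⟨A, B, hA', hB', hzA, hAO, hAB, hABe⟩ := hzd (de z) hz O' hO' hzO
    refine ⟨de ⁻¹' A, de ⁻¹' B, hop _ hA', hop _ hB', hzA, ?_, ?_, ?_⟩
    · rintro y ⟨hy, hy'⟩
      exact hAO ⟨hy, hy'⟩
    · intro y hy
      exact hAB hy
    · ext y
      simp only [mem_inter_iff, mem_preimage, mem_empty_iff_false, iff_false]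
      rintro ⟨⟨h1, h2⟩, h3⟩
      have : de y ∈ A ∩ B ∩ frontier W := ⟨⟨h1, h2⟩, h3⟩
      rw [hABe] at this
      exact this

end Pool.Agent.H55.Cos
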